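import Pool.Agent.Helper88.SlabLarge
import Pool.Agent.Helper34.Slab.Analysis

/-! F9: the splines `Q` of helper34 are the distribution functions of the sums `∑ b_j U_j`. -/

set_option autoImplicit false

open MeasureTheory Set Real
open Pool.Agent.Helper88.Slab (prob ind A cube)

namespace Pool.Agent.Helper89.FA

open Pool.Agent.Helper34.Slab (Q pk Q_insert Q_empty pk_integral pk_intervalIntegrable pk_measurable pk_mono
  pk_nonneg)
open Pool.Agent.Helper88.Slab (A_eq_diff A_abs_b cube_split ae_cube)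

lemma pq_map {α β : Type*} [DecidableEq α] [DecidableEq β] (e : α ↪ β) (b : β → ℝ) (k : ℕ) (s : Finset α) (z : ℝ) :
    Q b k (s.map e) z = Q (fun a => b (e a)) k s z := by
  induction s using Finset.induction_on generalizing z with
  | empty => rw [Finset.map_empty, Q_empty, Q_empty]
  | insert i s hi ih =>
    have hi' : e i ∉ s.map e := by
      rw [Finset.mem_map]
      rintro ⟨j, hj, hji⟩
      exact hi (e.injective hji ▸ hj)
    rw [Finset.map_insert, Q_insert k hi', Q_insert k hi, ih, ih]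

lemma pq_A {b : ℝ} (hb : 0 < b) (k : ℕ) (z y : ℝ) :
    A b (fun w => pk k (z + w)) y = (pk (k + 1) ((z + b) + y) - pk (k + 1) ((z - b) + y)) / (2 * b) := by
  have hint : ∀ x y, IntervalIntegrable (fun w => pk k (z + w)) volume x y := by
    intro x y
    have h1 := (pk_intervalIntegrable k (z + x) (z + y)).comp_add_left z
    simpa only [add_sub_cancel_left] using h1
  rw [A_eq_diff hb hint, intervalIntegral.integral_comp_add_left (fun w => pk k w),
    intervalIntegral.integral_comp_add_left (fun w => pk k w), pk_integral, pk_integral]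
  rw [show z + (y + b) = z + b + y by ring, show z + (y - b) = z - b + y by ring]
  ring

lemma pq_integrable {n : ℕ} (a : Fin n → ℝ) (k : ℕ) (z : ℝ) :
    Integrable (fun x : Fin n → ℝ => pk k (z + ∑ j, a j * x j)) (cube n) := by
  refine Integrable.of_bound ?_ (pk k (|z| + ∑ j, |a j|)) ?_
  · exact ((pk_measurable k).comp (by fun_prop)).aestronglyMeasurable
  · filter_upwards [ae_cube n] with x hx
    rw [Real.norm_eq_abs, abs_of_nonneg (pk_nonneg _ _)]
    apply pk_mono
    refine add_le_add (le_abs_self z) (Finset.sum_le_sum (fun j _ => ?_))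
    refine (le_abs_self _).trans ?_
    rw [abs_mul]
    have h1 : |x j| ≤ 1 := abs_le.2 ⟨hx.1 j, hx.2 j⟩
    exact mul_le_of_le_one_right (abs_nonneg _) h1

lemma pq_cube {n : ℕ} (a : Fin n → ℝ) (ha : ∀ j, a j ≠ 0) (k : ℕ) (z : ℝ) :
    ∫ x, pk k (z + ∑ j, a j * x j) ∂(cube n) = Q (fun j => |a j|) (k + n) Finset.univ z := by
  induction n generalizing k z with
  | zero =>
    simp only [Finset.univ_eq_empty, Finset.sum_empty, integral_const]
    rw [Q_empty]
    simp
  | succ n ih =>
    rw [cube_split 0 a (fun w => pk k (z + w)) (pq_integrable a k z)]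
    have h0 : 0 < |a 0| := abs_pos.2 (ha 0)
    have h1 : ∀ y : Fin n → ℝ, A (a 0) (fun w => pk k (z + w)) (∑ j, a (Fin.succAbove 0 j) * y j) =
        (pk (k + 1) ((z + |a 0|) + ∑ j, a (Fin.succAbove 0 j) * y j) -
          pk (k + 1) ((z - |a 0|) + ∑ j, a (Fin.succAbove 0 j) * y j)) / (2 * |a 0|) := by
      intro y
      rw [← A_abs_b, pq_A h0]
    simp only [h1]
    rw [integral_div, integral_sub (pq_integrable _ _ _) (pq_integrable _ _ _),
      ih (fun j => a (Fin.succAbove 0 j)) (fun j => ha _), ih (fun j => a (Fin.succAbove 0 j)) (fun j => ha _)]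
    have h2 : (Finset.univ : Finset (Fin (n + 1))) =
        insert 0 ((Finset.univ : Finset (Fin n)).map (Fin.succEmb n)) := by
      ext j
      refine Fin.cases ?_ (fun j => ?_) j <;> simp
    have h3 : (0 : Fin (n + 1)) ∉ (Finset.univ : Finset (Fin n)).map (Fin.succEmb n) := by
      rw [Finset.mem_map]
      rintro ⟨j, _, hj⟩
      exact Fin.succ_ne_zero j hj
    rw [h2, Q_insert _ h3, pq_map, pq_map, show k + 1 + n = k + (n + 1) by ring]
    rfl

lemma pq_ind {t : ℝ} (ht : 0 ≤ t) (w : ℝ) : ind t w = pk 0 (t + w) + pk 0 (t + -w) - 1 := by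
  unfold Pool.Agent.Helper88.Slab.ind pk
  simp only [pow_zero, Nat.factorial_zero, Nat.cast_one, div_one]
  simp only [abs_le]
  by_cases h1 : -t ≤ w
  · by_cases h2 : w ≤ t
    · rw [if_pos ⟨h1, h2⟩, if_pos (by linarith), if_pos (by linarith)]
      ring
    · rw [if_neg (fun h => h2 h.2), if_pos (by linarith), if_neg (by intro h; apply h2; linarith)]
      ring
  · rw [if_neg (fun h => h1 h.1), if_neg (by intro h; apply h1; linarith), if_pos (by
      have := not_le.1 h1
      linarith)]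
    ring

theorem prob_eq_Q {n : ℕ} (hn : 1 ≤ n) (b : Fin n → ℝ) (hb : ∀ j, 0 < b j) {t : ℝ} (ht : 0 ≤ t) :
    prob b t = 2 * Pool.Agent.Helper34.Slab.Q b n Finset.univ t - 1 := by
  have h1 : ∀ x : Fin n → ℝ, ind t (∑ j, b j * x j) =
      pk 0 (t + ∑ j, b j * x j) + pk 0 (t + ∑ j, (-b j) * x j) - 1 := by
    intro x
    rw [pq_ind ht]
    congr 3
    simp [Finset.sum_neg_distrib]
  have h2 := pq_cube b (fun j => (hb j).ne') 0 t
  have h3 := pq_cube (fun j => -b j) (fun j => neg_ne_zero.2 (hb j).ne') 0 t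
  have h4 : (fun j => |b j|) = b := by
    funext j
    exact abs_of_pos (hb j)
  have h5 : (fun j => |-b j|) = b := by
    funext j
    rw [abs_neg]
    exact abs_of_pos (hb j)
  rw [h4, zero_add] at h2
  rw [h5, zero_add] at h3
  rw [Pool.Agent.Helper88.Slab.prob]
  simp only [h1]
  have i1 := pq_integrable b 0 t
  have i2 := pq_integrable (fun j => -b j) 0 t
  have h6 : ∫ x : Fin n → ℝ, (pk 0 (t + ∑ j, b j * x j) + pk 0 (t + ∑ j, (-b j) * x j) - 1) ∂(cube n) =
      (∫ x : Fin n → ℝ, (pk 0 (t + ∑ j, b j * x j) + pk 0 (t + ∑ j, (-b j) * x j)) ∂(cube n)) -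
        ∫ _ : Fin n → ℝ, (1 : ℝ) ∂(cube n) := integral_sub (i1.add i2) (integrable_const _)
  have h7 : ∫ x : Fin n → ℝ, (pk 0 (t + ∑ j, b j * x j) + pk 0 (t + ∑ j, (-b j) * x j)) ∂(cube n) =
      (∫ x : Fin n → ℝ, pk 0 (t + ∑ j, b j * x j) ∂(cube n)) +
        ∫ x : Fin n → ℝ, pk 0 (t + ∑ j, (-b j) * x j) ∂(cube n) := integral_add i1 i2
  rw [h6, h7, h2, h3]
  simp
  ring

end Pool.Agent.Helper89.FA
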